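import Mathlib
set_option autoImplicit false

namespace Pool.Agent.H454R2.Piv

open Finset

/-- the neighbour of the vertex `x` of the `n`-cube in direction `i` -/
def flip {n : ℕ} (x : Fin n → Bool) (i : Fin n) : Fin n → Bool := Function.update x i (!x i)

/-- the set of improving directions at the vertex `x` -/
def improving {n : ℕ} (f : (Fin n → Bool) → ℕ) (x : Fin n → Bool) : Finset (Fin n) :=
  univ.filter fun i => f x < f (flip x i)

end Pool.Agent.H454R2.Piv
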