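import Pool.Agent.H454R2.PivDefs
set_option autoImplicit false

namespace Pool.Agent.H454R2.Piv

open Finset

/-- abstract objective functions on the faces spanned by `T`: on every face with direction set
`U ⊆ T` there is exactly one local maximum. -/
def UniqueMax {n : ℕ} (T : Finset (Fin n)) (f : (Fin n → Bool) → ℕ) : Prop :=
  ∀ U ⊆ T, ∀ x : Fin n → Bool, ∃! y : Fin n → Bool,
    (∀ i, i ∉ U → y i = x i) ∧ ∀ i ∈ U, f (flip y i) < f y

section flip

variable {n : ℕ}

@[simp] theorem flip_same (x : Fin n → Bool) (i : Fin n) : flip x i i = !x i := by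
  simp [flip]

theorem flip_ne (x : Fin n → Bool) {i j : Fin n} (h : j ≠ i) : flip x i j = x j := by
  simp [flip, h]

@[simp] theorem flip_flip (x : Fin n → Bool) (i : Fin n) : flip (flip x i) i = x := by
  funext j
  by_cases h : j = i
  · subst h; simp
  · rw [flip_ne _ h, flip_ne _ h]

end flip

/-- from every vertex an increasing path of at most `|T|` steps leads to the maximum -/
def Short {n : ℕ} (T : Finset (Fin n)) (f : (Fin n → Bool) → ℕ) : Prop :=
  ∀ x : Fin n → Bool, ∃ (m : ℕ) (w : ℕ → (Fin n → Bool)), m ≤ T.card ∧ w 0 = x ∧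
    (∀ k < m, ∃ i ∈ improving f (w k), w (k + 1) = flip (w k) i) ∧ improving f (w m) = ∅

/-- achievable number of vertices of a path: context `P`, free directions `T` -/
def Ach {n : ℕ} (r : Finset (Fin n) → Fin n) (P T : Finset (Fin n)) (M : ℕ) : Prop :=
  ∀ x0 : Fin n → Bool, ∃ (f : (Fin n → Bool) → ℕ) (L : ℕ) (v : ℕ → (Fin n → Bool)),
    (∀ x y : Fin n → Bool, (∀ i ∈ T, x i = y i) → f x = f y) ∧
    (∀ x y : Fin n → Bool, f x = f y → ∀ i ∈ T, x i = y i) ∧
    UniqueMax T f ∧ Short T f ∧
    v 0 = x0 ∧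
    (∀ k < L, r (P ∪ improving f (v k)) ∈ improving f (v k) ∧
      v (k + 1) = flip (v k) (r (P ∪ improving f (v k)))) ∧
    improving f (v L) = ∅ ∧ M ≤ L + 1

section basic

variable {n : ℕ} {r : Finset (Fin n) → Fin n} {P T : Finset (Fin n)}

theorem improving_subset {f : (Fin n → Bool) → ℕ}
    (hf : ∀ x y : Fin n → Bool, (∀ i ∈ T, x i = y i) → f x = f y) (x : Fin n → Bool) :
    improving f x ⊆ T := by
  intro i hi
  by_contra h
  have h1 : f x < f (flip x i) := (mem_filter.1 hi).2
  have h2 : f (flip x i) = f x := hf _ _ (fun j hj => flip_ne x (fun e => h (e ▸ hj)))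
  omega

theorem path_const {f : (Fin n → Bool) → ℕ}
    (hf : ∀ x y : Fin n → Bool, (∀ i ∈ T, x i = y i) → f x = f y) {L : ℕ}
    {v : ℕ → (Fin n → Bool)}
    (hv : ∀ k < L, r (P ∪ improving f (v k)) ∈ improving f (v k) ∧
      v (k + 1) = flip (v k) (r (P ∪ improving f (v k)))) {a : Fin n} (ha : a ∉ T) :
    ∀ k ≤ L, v k a = v 0 a := by
  intro k
  induction k with
  | zero => intro _; rfl
  | succ k ih =>
    intro hk
    have h1 := hv k (by omega)
    rw [h1.2, flip_ne, ih (by omega)]
    intro e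
    apply ha
    rw [e]
    exact improving_subset hf _ h1.1

theorem ach_empty : Ach r P ∅ 1 := by
  intro x0
  refine ⟨fun _ => 0, 0, fun _ => x0, fun _ _ _ => rfl, fun _ _ _ i hi => absurd hi (by simp),
    ?_, ?_, rfl, fun k hk => absurd hk (by omega), ?_, le_refl _⟩
  · intro U hU x
    have hU' : U = ∅ := subset_empty.1 hU
    subst hU'
    refine ⟨x, ⟨fun _ _ => rfl, by simp⟩, ?_⟩
    intro y hy
    funext i
    exact hy.1 i (by simp)
  · intro x
    exact ⟨0, fun _ => x, le_rfl, rfl, fun k hk => absurd hk (by omega), by simp [improving]⟩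
  · simp [improving]

/-- gluing two abstract objective functions along direction `a`: the half `x a = u` is below. -/
def glue (a : Fin n) (u : Bool) (f₁ f₀ : (Fin n → Bool) → ℕ) : (Fin n → Bool) → ℕ :=
  fun x => if x a = u then f₁ x else f₀ x + (univ.sup f₁ + 1)

theorem le_sup' (f₁ : (Fin n → Bool) → ℕ) (x : Fin n → Bool) : f₁ x < univ.sup f₁ + 1 :=
  Nat.lt_succ_of_le (Finset.le_sup (f := f₁) (mem_univ x))

theorem glue_eq {a : Fin n} {u : Bool} {f₁ f₀ : (Fin n → Bool) → ℕ} {x : Fin n → Bool}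
    (h : x a = u) : glue a u f₁ f₀ x = f₁ x := by
  simp [glue, h]

theorem glue_ne {a : Fin n} {u : Bool} {f₁ f₀ : (Fin n → Bool) → ℕ} {x : Fin n → Bool}
    (h : x a ≠ u) : glue a u f₁ f₀ x = f₀ x + (univ.sup f₁ + 1) := by
  simp [glue, h]

theorem glue_lt {a : Fin n} {u : Bool} {f₁ f₀ : (Fin n → Bool) → ℕ} {x y : Fin n → Bool}
    (hx : x a = u) (hy : y a ≠ u) : glue a u f₁ f₀ x < glue a u f₁ f₀ y := by
  rw [glue_eq hx, glue_ne hy]
  have := le_sup' f₁ x
  omega

theorem not_ne {b u : Bool} (h : b = u) : (!b) ≠ u := by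
  subst h; cases b <;> simp

theorem not_eq {b u : Bool} (h : b ≠ u) : (!b) = u := by
  cases b <;> cases u <;> simp_all

theorem eq_of_ne {b c u : Bool} (h : b ≠ u) (h' : c ≠ u) : b = c := by
  cases b <;> cases c <;> cases u <;> simp_all

theorem improving_glue_eq {a : Fin n} {u : Bool} {f₁ f₀ : (Fin n → Bool) → ℕ}
    {x : Fin n → Bool} (hx : x a = u) :
    improving (glue a u f₁ f₀) x = insert a (improving f₁ x) := by
  ext i
  rw [mem_insert, improving, mem_filter, improving, mem_filter]
  by_cases hi : i = a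
  · subst hi
    have : glue i u f₁ f₀ x < glue i u f₁ f₀ (flip x i) :=
      glue_lt hx (by rw [flip_same]; exact not_ne hx)
    simp [this]
  · have h2 : (flip x i) a = u := by rw [flip_ne x (Ne.symm hi), hx]
    rw [glue_eq hx, glue_eq h2]
    simp [hi]

theorem improving_glue_ne {a : Fin n} {u : Bool} {f₁ f₀ : (Fin n → Bool) → ℕ}
    (ha : a ∉ T) (h₀ : ∀ x y : Fin n → Bool, (∀ i ∈ T, x i = y i) → f₀ x = f₀ y)
    {x : Fin n → Bool} (hx : x a ≠ u) :
    improving (glue a u f₁ f₀) x = improving f₀ x := by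
  ext i
  rw [improving, mem_filter, improving, mem_filter]
  by_cases hi : i = a
  · subst hi
    have h1 : glue i u f₁ f₀ (flip x i) < glue i u f₁ f₀ x :=
      glue_lt (by rw [flip_same]; exact not_eq hx) hx
    have h2 : f₀ (flip x i) = f₀ x := h₀ _ _ (fun j hj => flip_ne x (fun e => ha (e ▸ hj)))
    constructor
    · rintro ⟨_, h⟩; omega
    · rintro ⟨_, h⟩; omega
  · have h2 : (flip x i) a ≠ u := by rw [flip_ne x (Ne.symm hi)]; exact hx
    rw [glue_ne hx, glue_ne h2]
    simp

theorem glue_dep {a : Fin n} {u : Bool} {f₁ f₀ : (Fin n → Bool) → ℕ}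
    (h₁ : ∀ x y : Fin n → Bool, (∀ i ∈ T, x i = y i) → f₁ x = f₁ y)
    (h₀ : ∀ x y : Fin n → Bool, (∀ i ∈ T, x i = y i) → f₀ x = f₀ y)
    (x y : Fin n → Bool) (h : ∀ i ∈ insert a T, x i = y i) :
    glue a u f₁ f₀ x = glue a u f₁ f₀ y := by
  have ha : x a = y a := h a (mem_insert_self a T)
  have hT : ∀ i ∈ T, x i = y i := fun i hi => h i (mem_insert_of_mem hi)
  unfold glue
  rw [ha, h₁ x y hT, h₀ x y hT]

theorem glue_inj {a : Fin n} {u : Bool} {f₁ f₀ : (Fin n → Bool) → ℕ}
    (h₁ : ∀ x y : Fin n → Bool, f₁ x = f₁ y → ∀ i ∈ T, x i = y i)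
    (h₀ : ∀ x y : Fin n → Bool, f₀ x = f₀ y → ∀ i ∈ T, x i = y i)
    (x y : Fin n → Bool) (h : glue a u f₁ f₀ x = glue a u f₁ f₀ y) :
    ∀ i ∈ insert a T, x i = y i := by
  by_cases hx : x a = u
  · by_cases hy : y a = u
    · rw [glue_eq hx, glue_eq hy] at h
      intro i hi
      rcases mem_insert.1 hi with rfl | hi
      · rw [hx, hy]
      · exact h₁ x y h i hi
    · exact absurd h (glue_lt hx hy).ne
  · by_cases hy : y a = u
    · exact absurd h (glue_lt hy hx).ne'
    · rw [glue_ne hx, glue_ne hy] at h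
      intro i hi
      rcases mem_insert.1 hi with hia | hi
      · rw [hia]; exact eq_of_ne hx hy
      · exact h₀ x y (by omega) i hi

theorem glue_uniqueMax {a : Fin n} {u : Bool} {f₁ f₀ : (Fin n → Bool) → ℕ} (ha : a ∉ T)
    (h₁ : UniqueMax T f₁) (h₀ : UniqueMax T f₀) : UniqueMax (insert a T) (glue a u f₁ f₀) := by
  intro U hU x
  by_cases haU : a ∈ U
  · -- the maximum lies in the upper half
    set x' : Fin n → Bool := Function.update x a (!u) with hx'
    have hx'a : x' a = !u := by simp [hx']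
    have hx'j : ∀ j, j ≠ a → x' j = x j := fun j hj => by simp [hx', hj]
    have hUe : U.erase a ⊆ T := by
      intro i hi
      rcases mem_insert.1 (hU (mem_of_mem_erase hi)) with h | h
      · exact absurd h (ne_of_mem_erase hi)
      · exact h
    obtain ⟨y, ⟨hy1, hy2⟩, hy3⟩ := h₀ (U.erase a) hUe x'
    have hya : y a = !u := by rw [hy1 a (notMem_erase a U), hx'a]
    have hyu : y a ≠ u := by rw [hya]; exact not_ne rfl
    refine ⟨y, ⟨?_, ?_⟩, ?_⟩
    · intro i hi
      have hia : i ≠ a := fun e => hi (e ▸ haU)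
      rw [hy1 i (fun h => hi (mem_of_mem_erase h)), hx'j i hia]
    · intro i hi
      by_cases hia : i = a
      · subst hia
        exact glue_lt (by rw [flip_same]; exact not_eq hyu) hyu
      · have h2 : (flip y i) a ≠ u := by rw [flip_ne y (Ne.symm hia)]; exact hyu
        rw [glue_ne h2, glue_ne hyu]
        have := hy2 i (mem_erase.2 ⟨hia, hi⟩)
        omega
    · intro z hz
      have hzu : z a ≠ u := by
        intro h
        have h1 := hz.2 a haU
        have h2 : glue a u f₁ f₀ z < glue a u f₁ f₀ (flip z a) :=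
          glue_lt h (by rw [flip_same]; exact not_ne h)
        omega
      apply hy3
      constructor
      · intro i hi
        by_cases hia : i = a
        · rw [hia, hx'a]
          exact eq_of_ne hzu (not_ne rfl)
        · rw [hx'j i hia]
          exact hz.1 i (fun h => hi (mem_erase.2 ⟨hia, h⟩))
      · intro i hi
        have hia : i ≠ a := ne_of_mem_erase hi
        have h1 := hz.2 i (mem_of_mem_erase hi)
        have h2 : (flip z i) a ≠ u := by rw [flip_ne z (Ne.symm hia)]; exact hzu
        rw [glue_ne h2, glue_ne hzu] at h1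
        omega
  · have hUT : U ⊆ T := by
      intro i hi
      rcases mem_insert.1 (hU hi) with h | h
      · exact absurd (h ▸ hi) haU
      · exact h
    by_cases hxu : x a = u
    · obtain ⟨y, ⟨hy1, hy2⟩, hy3⟩ := h₁ U hUT x
      refine ⟨y, ⟨hy1, ?_⟩, ?_⟩
      · intro i hi
        have hia : i ≠ a := fun e => haU (e ▸ hi)
        have hya : y a = u := by rw [hy1 a haU, hxu]
        rw [glue_eq (by rw [flip_ne y (Ne.symm hia), hya]), glue_eq hya]
        exact hy2 i hi
      · intro z hz
        apply hy3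
        refine ⟨hz.1, ?_⟩
        intro i hi
        have hia : i ≠ a := fun e => haU (e ▸ hi)
        have hza : z a = u := by rw [hz.1 a haU, hxu]
        have h1 := hz.2 i hi
        rwa [glue_eq (by rw [flip_ne z (Ne.symm hia), hza]), glue_eq hza] at h1
    · obtain ⟨y, ⟨hy1, hy2⟩, hy3⟩ := h₀ U hUT x
      refine ⟨y, ⟨hy1, ?_⟩, ?_⟩
      · intro i hi
        have hia : i ≠ a := fun e => haU (e ▸ hi)
        have hya : y a ≠ u := by rw [hy1 a haU]; exact hxu
        rw [glue_ne (by rw [flip_ne y (Ne.symm hia)]; exact hya), glue_ne hya]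
        have := hy2 i hi
        omega
      · intro z hz
        apply hy3
        refine ⟨hz.1, ?_⟩
        intro i hi
        have hia : i ≠ a := fun e => haU (e ▸ hi)
        have hza : z a ≠ u := by rw [hz.1 a haU]; exact hxu
        have h1 := hz.2 i hi
        rw [glue_ne (by rw [flip_ne z (Ne.symm hia)]; exact hza), glue_ne hza] at h1
        omega

theorem glue_short {a : Fin n} {u : Bool} {f₁ f₀ : (Fin n → Bool) → ℕ} (ha : a ∉ T)
    (d₀ : ∀ x y : Fin n → Bool, (∀ i ∈ T, x i = y i) → f₀ x = f₀ y)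
    (h₀ : Short T f₀) : Short (insert a T) (glue a u f₁ f₀) := by
  have key : ∀ x : Fin n → Bool, x a ≠ u → ∃ (m : ℕ) (w : ℕ → (Fin n → Bool)),
      m ≤ T.card ∧ w 0 = x ∧
      (∀ k < m, ∃ i ∈ improving (glue a u f₁ f₀) (w k), w (k + 1) = flip (w k) i) ∧
      improving (glue a u f₁ f₀) (w m) = ∅ := by
    intro x hx
    obtain ⟨m, w, h1, h2, h3, h4⟩ := h₀ x
    have hc : ∀ k ≤ m, w k a ≠ u := by
      intro k
      induction k with
      | zero => intro _; rw [h2]; exact hx
      | succ k ih =>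
        intro hk
        obtain ⟨i, hi, hw⟩ := h3 k (by omega)
        rw [hw, flip_ne]
        · exact ih (by omega)
        · intro e
          exact ha (e ▸ improving_subset d₀ _ hi)
    have hi : ∀ k ≤ m, improving (glue a u f₁ f₀) (w k) = improving f₀ (w k) :=
      fun k hk => improving_glue_ne ha d₀ (hc k hk)
    refine ⟨m, w, h1, h2, ?_, ?_⟩
    · intro k hk
      rw [hi k (by omega)]
      exact h3 k hk
    · rw [hi m le_rfl]
      exact h4
  intro x
  rw [card_insert_of_notMem ha]
  by_cases hx : x a = u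
  · obtain ⟨m, w, h1, h2, h3, h4⟩ := key (flip x a) (by rw [flip_same]; exact not_ne hx)
    refine ⟨m + 1, fun k => if k = 0 then x else w (k - 1), by omega, by simp, ?_, ?_⟩
    · intro k hk
      rcases Nat.eq_zero_or_pos k with h | h
      · subst h
        refine ⟨a, ?_, by simpa using h2⟩
        show a ∈ improving (glue a u f₁ f₀) x
        rw [improving, mem_filter]
        exact ⟨mem_univ a, glue_lt hx (by rw [flip_same]; exact not_ne hx)⟩
      · obtain ⟨k', rfl⟩ : ∃ k', k = k' + 1 := ⟨k - 1, by omega⟩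
        have := h3 k' (by omega)
        simpa using this
    · simpa using h4
  · obtain ⟨m, w, h1, h2, h3, h4⟩ := key x hx
    exact ⟨m, w, by omega, h2, h3, h4⟩

/-- a direction that is never used -/
theorem ach_skip {a : Fin n} (ha : a ∉ T) {M : ℕ} (h : Ach r P T M) : Ach r P (insert a T) M := by
  intro x0
  obtain ⟨f, L, v, h1, h2, h3, hs, h4, h5, h6, h7⟩ := h x0
  have hc : ∀ k ≤ L, v k a ≠ !(x0 a) := by
    intro k hk
    rw [path_const h1 h5 ha k hk, h4]
    exact (not_ne rfl).symm
  have hi : ∀ k ≤ L, improving (glue a (!(x0 a)) f f) (v k) = improving f (v k) :=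
    fun k hk => improving_glue_ne ha h1 (hc k hk)
  refine ⟨glue a (!(x0 a)) f f, L, v, glue_dep h1 h1, glue_inj h2 h2, glue_uniqueMax ha h3 h3,
    glue_short ha h1 hs, h4, ?_, ?_, h7⟩
  · intro k hk
    rw [hi k (by omega)]
    exact h5 k hk
  · rw [hi L le_rfl]
    exact h6

/-- a direction that is chosen when it is the only one besides the context -/
theorem ach_step {a : Fin n} (ha : a ∉ T) (hr : r (insert a P) = a) {M₁ M₀ : ℕ}
    (h₁ : Ach r (insert a P) T M₁) (h₀ : Ach r P T M₀) : Ach r P (insert a T) (M₁ + M₀) := by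
  intro x0
  obtain ⟨f₁, L₁, v₁, a1, a2, a3, as, a4, a5, a6, a7⟩ := h₁ x0
  obtain ⟨f₀, L₀, v₀, b1, b2, b3, bs, b4, b5, b6, b7⟩ := h₀ (flip (v₁ L₁) a)
  have hc₁ : ∀ k ≤ L₁, v₁ k a = x0 a := by
    intro k hk
    rw [path_const a1 a5 ha k hk, a4]
  have hc₀ : ∀ k ≤ L₀, v₀ k a ≠ x0 a := by
    intro k hk
    rw [path_const b1 b5 ha k hk, b4, flip_same, hc₁ L₁ le_rfl]
    exact not_ne rfl
  have hi₁ : ∀ k ≤ L₁, improving (glue a (x0 a) f₁ f₀) (v₁ k) = insert a (improving f₁ (v₁ k)) :=
    fun k hk => improving_glue_eq (hc₁ k hk)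
  have hi₀ : ∀ k ≤ L₀, improving (glue a (x0 a) f₁ f₀) (v₀ k) = improving f₀ (v₀ k) :=
    fun k hk => improving_glue_ne ha b1 (hc₀ k hk)
  set v : ℕ → (Fin n → Bool) := fun k => if k ≤ L₁ then v₁ k else v₀ (k - (L₁ + 1)) with hv
  have hvle : ∀ k ≤ L₁, v k = v₁ k := fun k hk => by simp [hv, hk]
  have hvgt : ∀ k, v (L₁ + 1 + k) = v₀ k := fun k => by
    have : ¬ (L₁ + 1 + k ≤ L₁) := by omega
    simp [hv, this]
  refine ⟨glue a (x0 a) f₁ f₀, L₁ + 1 + L₀, v, glue_dep a1 b1, glue_inj a2 b2,
    glue_uniqueMax ha a3 b3, glue_short ha b1 bs, ?_, ?_, ?_, by omega⟩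
  · rw [hvle 0 (Nat.zero_le _), a4]
  · intro k hk
    rcases lt_trichotomy k L₁ with h | h | h
    · rw [hvle k (by omega), hvle (k + 1) (by omega), hi₁ k (by omega), union_insert,
        ← insert_union]
      have h5 := a5 k h
      refine ⟨mem_insert_of_mem h5.1, h5.2⟩
    · subst h
      rw [hvle k le_rfl, hi₁ k le_rfl, a6]
      have h8 : v (k + 1) = v₀ 0 := by
        have := hvgt 0
        simpa using this
      rw [h8, b4]
      have h9 : P ∪ insert a (∅ : Finset (Fin n)) = insert a P := by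
        rw [union_insert, union_empty]
      rw [h9, hr]
      exact ⟨mem_insert_self a ∅, rfl⟩
    · obtain ⟨m, rfl⟩ : ∃ m, k = L₁ + 1 + m := ⟨k - (L₁ + 1), by omega⟩
      have h8 : v (L₁ + 1 + m + 1) = v₀ (m + 1) := by
        rw [add_assoc (L₁ + 1) m 1]; exact hvgt (m + 1)
      rw [h8, hvgt, hi₀ m (by omega)]
      exact b5 m (by omega)
  · rw [hvgt, hi₀ L₀ le_rfl]
    exact b6

end basic

section counting

variable {n : ℕ} (r : Finset (Fin n) → Fin n)

/-- number of orderings of `C` (of size `k`) in which every initial segment, added to the context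
`P`, makes the rule choose its last element -/
def kap : ℕ → Finset (Fin n) → Finset (Fin n) → ℕ
  | 0, _, _ => 1
  | k + 1, P, C => ∑ a ∈ C, if r (insert a P) = a then kap k (insert a P) (C.erase a) else 0

theorem kap_succ (k : ℕ) : ∀ (P C : Finset (Fin n)), C.card = k + 1 → Disjoint P C →
    kap r (k + 1) P C = if r (P ∪ C) ∈ C then kap r k P (C.erase (r (P ∪ C))) else 0 := by
  induction k with
  | zero =>
    intro P C hC _
    obtain ⟨a, rfl⟩ := card_eq_one.1 hC
    have h1 : P ∪ {a} = insert a P := by rw [union_comm, singleton_union]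
    rw [h1]
    simp only [kap, sum_singleton, mem_singleton]
  | succ k ih =>
    intro P C hC hd
    set c := r (P ∪ C) with hc
    have hstep : ∀ a ∈ C, kap r (k + 1) (insert a P) (C.erase a) =
        if c ∈ C.erase a then kap r k (insert a P) ((C.erase a).erase c) else 0 := by
      intro a ha
      have h1 : (C.erase a).card = k + 1 := by rw [card_erase_of_mem ha, hC]; rfl
      have h2 : Disjoint (insert a P) (C.erase a) := by
        rw [disjoint_insert_left]
        exact ⟨notMem_erase a C, hd.mono_right (erase_subset a C)⟩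
      rw [ih _ _ h1 h2]
      have h3 : insert a P ∪ C.erase a = P ∪ C := by
        rw [insert_union, ← union_insert, insert_erase ha]
      rw [h3]
    have h4 : kap r (k + 1 + 1) P C = ∑ a ∈ C, if r (insert a P) = a then
        kap r (k + 1) (insert a P) (C.erase a) else 0 := rfl
    rw [h4]
    by_cases hcC : c ∈ C
    · rw [if_pos hcC]
      have h5 : kap r (k + 1) P (C.erase c) = ∑ a ∈ C.erase c, if r (insert a P) = a then
        kap r k (insert a P) ((C.erase c).erase a) else 0 := rfl
      rw [h5, ← add_sum_erase C _ hcC]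
      have h6 : (if r (insert c P) = c then kap r (k + 1) (insert c P) (C.erase c) else 0) = 0 := by
        rw [hstep c hcC, if_neg (notMem_erase c C), ite_self]
      rw [h6, zero_add]
      apply sum_congr rfl
      intro a ha
      rw [hstep a (mem_of_mem_erase ha), if_pos (mem_erase.2 ⟨(ne_of_mem_erase ha).symm, hcC⟩),
        erase_right_comm]
    · rw [if_neg hcC]
      apply sum_eq_zero
      intro a ha
      rw [hstep a ha, if_neg (fun h => hcC (mem_of_mem_erase h)), ite_self]

theorem kap_empty (hr : ∀ S : Finset (Fin n), S.Nonempty → r S ∈ S) :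
    ∀ (k : ℕ) (C : Finset (Fin n)), C.card = k → kap r k ∅ C = 1 := by
  intro k
  induction k with
  | zero => intro C _; rfl
  | succ k ih =>
    intro C hC
    have hne : C.Nonempty := card_pos.1 (by omega)
    rw [kap_succ r k ∅ C hC (disjoint_empty_left C), empty_union, if_pos (hr C hne)]
    apply ih
    rw [card_erase_of_mem (hr C hne), hC]
    rfl

/-- the expected number of vertices for a random order -/
noncomputable def avg (P T : Finset (Fin n)) : ℝ :=
  ∑ C ∈ T.powerset, (kap r C.card P C : ℝ) / (C.card.factorial : ℝ)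

theorem avg_rec (P T : Finset (Fin n)) :
    ∑ a ∈ T, (avg r P (T.erase a) +
      if r (insert a P) = a then avg r (insert a P) (T.erase a) else 0) = T.card * avg r P T := by
  rw [sum_add_distrib]
  have h1 : ∑ a ∈ T, avg r P (T.erase a) = ∑ C ∈ T.powerset, ((T.card : ℝ) - C.card) *
      ((kap r C.card P C : ℝ) / (C.card.factorial : ℝ)) := by
    unfold avg
    rw [sum_comm' (t' := T.powerset) (s' := fun C => T \ C)]
    · apply sum_congr rfl
      intro C hC
      rw [sum_const, nsmul_eq_mul, card_sdiff_of_subset (mem_powerset.1 hC),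
        Nat.cast_sub (card_le_card (mem_powerset.1 hC))]
    · intro a C
      rw [mem_powerset, mem_powerset, mem_sdiff]
      constructor
      · rintro ⟨h1, h2⟩
        exact ⟨⟨h1, fun h => notMem_erase a T (h2 h)⟩, h2.trans (erase_subset a T)⟩
      · rintro ⟨⟨h1, h2⟩, h3⟩
        exact ⟨h1, fun i hi => mem_erase.2 ⟨fun e => h2 (e ▸ hi), h3 hi⟩⟩
  have h2 : ∑ a ∈ T, (if r (insert a P) = a then avg r (insert a P) (T.erase a) else 0) =
      ∑ C ∈ T.powerset, (C.card : ℝ) * ((kap r C.card P C : ℝ) / (C.card.factorial : ℝ)) := by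
    have h3 : ∀ a ∈ T, (if r (insert a P) = a then avg r (insert a P) (T.erase a) else 0) =
        ∑ C ∈ T.powerset with a ∈ C, (if r (insert a P) = a then
          ((kap r (C.erase a).card (insert a P) (C.erase a) : ℝ) /
            ((C.erase a).card.factorial : ℝ)) else 0) := by
      intro a ha
      by_cases hr : r (insert a P) = a
      · simp only [hr, if_true]
        unfold avg
        refine sum_nbij' (fun C => insert a C) (fun C => C.erase a) ?_ ?_ ?_ ?_ ?_
        · intro C hC
          rw [mem_powerset] at hC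
          rw [mem_filter, mem_powerset]
          refine ⟨insert_subset ha (hC.trans (erase_subset a T)), mem_insert_self a C⟩
        · intro C hC
          rw [mem_filter, mem_powerset] at hC
          rw [mem_powerset]
          exact erase_subset_erase a hC.1
        · intro C hC
          rw [mem_powerset] at hC
          exact erase_insert (fun h => notMem_erase a T (hC h))
        · intro C hC
          rw [mem_filter] at hC
          exact insert_erase hC.2
        · intro C hC
          rw [mem_powerset] at hC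
          rw [erase_insert (fun h => notMem_erase a T (hC h))]
      · simp only [hr, if_false, sum_const_zero]
    rw [sum_congr rfl h3, sum_comm' (t' := T.powerset) (s' := fun C => C)]
    · apply sum_congr rfl
      intro C hC
      by_cases hC0 : C = ∅
      · subst hC0
        simp
      · obtain ⟨k, hk⟩ : ∃ k, C.card = k + 1 :=
          ⟨C.card - 1, by have := card_pos.2 (nonempty_iff_ne_empty.2 hC0); omega⟩
        have h4 : ∀ a ∈ C, (if r (insert a P) = a then
          ((kap r (C.erase a).card (insert a P) (C.erase a) : ℝ) /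
            ((C.erase a).card.factorial : ℝ)) else 0) =
            ((if r (insert a P) = a then kap r k (insert a P) (C.erase a) else 0 : ℕ) : ℝ) /
              (k.factorial : ℝ) := by
          intro a ha
          have h5 : (C.erase a).card = k := by rw [card_erase_of_mem ha, hk]; rfl
          rw [h5]
          split_ifs <;> simp
        rw [sum_congr rfl h4, ← sum_div, ← Nat.cast_sum, hk]
        have h6 : (∑ a ∈ C, if r (insert a P) = a then kap r k (insert a P) (C.erase a) else 0) =
          kap r (k + 1) P C := rfl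
        rw [h6, Nat.factorial_succ]
        push_cast
        have h7 : (k.factorial : ℝ) ≠ 0 := by positivity
        have h8 : (k : ℝ) + 1 ≠ 0 := by positivity
        field_simp
    · intro a C
      rw [mem_filter, mem_powerset]
      constructor
      · rintro ⟨h1, h2, h3⟩
        exact ⟨h3, h2⟩
      · rintro ⟨h3, h2⟩
        exact ⟨h2 h3, h2, h3⟩
  rw [h1, h2, ← sum_add_distrib]
  unfold avg
  rw [mul_sum]
  apply sum_congr rfl
  intro C _
  ring

theorem exists_ach : ∀ (t : ℕ) (P T : Finset (Fin n)), T.card = t →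
    ∃ M : ℕ, Ach r P T M ∧ avg r P T ≤ M := by
  intro t
  induction t with
  | zero =>
    intro P T hT
    have hT0 : T = ∅ := card_eq_zero.1 hT
    subst hT0
    refine ⟨1, ach_empty, ?_⟩
    simp [avg, kap]
  | succ t ih =>
    intro P T hT
    have hne : T.Nonempty := card_pos.1 (by omega)
    have h1 : ∑ _a ∈ T, avg r P T ≤ ∑ a ∈ T, (avg r P (T.erase a) +
      if r (insert a P) = a then avg r (insert a P) (T.erase a) else 0) := by
      rw [avg_rec, sum_const, nsmul_eq_mul]
    obtain ⟨a, ha, h2⟩ := exists_le_of_sum_le hne h1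
    have hcard : (T.erase a).card = t := by rw [card_erase_of_mem ha, hT]; rfl
    obtain ⟨M₀, hM₀, h3⟩ := ih P (T.erase a) hcard
    by_cases hr : r (insert a P) = a
    · rw [if_pos hr] at h2
      obtain ⟨M₁, hM₁, h4⟩ := ih (insert a P) (T.erase a) hcard
      refine ⟨M₁ + M₀, ?_, ?_⟩
      · have := ach_step (notMem_erase a T) hr hM₁ hM₀
        rwa [insert_erase ha] at this
      · push_cast
        linarith
    · rw [if_neg hr] at h2
      refine ⟨M₀, ?_, by linarith⟩
      have := ach_skip (notMem_erase a T) hM₀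
      rwa [insert_erase ha] at this

theorem avg_univ (hr : ∀ S : Finset (Fin n), S.Nonempty → r S ∈ S) :
    avg r ∅ univ = ∑ j ∈ range (n + 1), (n.choose j : ℝ) / (j.factorial : ℝ) := by
  unfold avg
  have h1 : ∀ C ∈ (univ : Finset (Fin n)).powerset,
      (kap r C.card ∅ C : ℝ) / (C.card.factorial : ℝ) = (fun j : ℕ => 1 / (j.factorial : ℝ)) C.card := by
    intro C _
    rw [kap_empty r hr C.card C rfl]
    simp
  have h2 := sum_powerset_apply_card (x := (univ : Finset (Fin n)))
    (fun j : ℕ => 1 / (j.factorial : ℝ))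
  rw [sum_congr rfl h1, h2, card_univ, Fintype.card_fin]
  apply sum_congr rfl
  intro j _
  rw [nsmul_eq_mul]
  ring

end counting

/-! ### the growth of the bound -/

theorem factorial_le (i : ℕ) (hi : 1 ≤ i) :
    (i.factorial : ℝ) ≤ i ^ (i + 1) * Real.exp (1 - i) := by
  induction i, hi using Nat.le_induction with
  | base => simp
  | succ i hi ih =>
    rw [Nat.factorial_succ]
    push_cast
    have hi0 : (0 : ℝ) < i := by exact_mod_cast hi
    have h1 : Real.exp 1 * (i : ℝ) ^ (i + 1) ≤ ((i : ℝ) + 1) ^ (i + 1) := by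
      have h2 : Real.exp (1 / (i + 1 : ℝ)) ≤ (i + 1) / i := by
        have h3 : Real.log ((i : ℝ) / (i + 1)) ≤ (i : ℝ) / (i + 1) - 1 :=
          Real.log_le_sub_one_of_pos (by positivity)
        have h4 : (i : ℝ) / (i + 1) - 1 = -(1 / (i + 1 : ℝ)) := by field_simp; ring
        rw [← Real.le_log_iff_exp_le (by positivity)]
        have h5 : Real.log (((i : ℝ) + 1) / i) = -Real.log ((i : ℝ) / (i + 1)) := by
          rw [← Real.log_inv, inv_div]
        rw [h5]
        linarith
      have h6 : Real.exp 1 = Real.exp (1 / (i + 1 : ℝ)) ^ (i + 1) := by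
        rw [← Real.exp_nat_mul]
        congr 1
        push_cast
        field_simp
      rw [h6]
      calc Real.exp (1 / (i + 1 : ℝ)) ^ (i + 1) * (i : ℝ) ^ (i + 1)
          ≤ (((i : ℝ) + 1) / i) ^ (i + 1) * (i : ℝ) ^ (i + 1) := by gcongr
        _ = ((i : ℝ) + 1) ^ (i + 1) := by
            rw [← mul_pow]
            congr 1
            field_simp
    have h7 : Real.exp (1 - (i : ℝ)) = Real.exp (1 - ((i : ℝ) + 1)) * Real.exp 1 := by
      rw [← Real.exp_add]; congr 1; ring
    calc ((i : ℝ) + 1) * (i.factorial : ℝ)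
        ≤ ((i : ℝ) + 1) * ((i : ℝ) ^ (i + 1) * Real.exp (1 - i)) := by gcongr
      _ = (Real.exp 1 * (i : ℝ) ^ (i + 1)) * (((i : ℝ) + 1) * Real.exp (1 - ((i : ℝ) + 1))) := by
          rw [h7]; ring
      _ ≤ ((i : ℝ) + 1) ^ (i + 1) * (((i : ℝ) + 1) * Real.exp (1 - ((i : ℝ) + 1))) := by gcongr
      _ = ((i : ℝ) + 1) ^ (i + 1 + 1) * Real.exp (1 - ((i : ℝ) + 1)) := by ring

theorem laguerre_lower (n : ℕ) (hn : 1 ≤ n) :
    Real.exp (2 * Real.sqrt n) / (150 * n) ≤
      ∑ j ∈ range (n + 1), (n.choose j : ℝ) / (j.factorial : ℝ) := by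
  set i := Nat.sqrt n with hi
  have hi1 : 1 ≤ i := by rw [hi, Nat.one_le_iff_ne_zero, Ne, Nat.sqrt_eq_zero]; omega
  have hi2 : i * i ≤ n := Nat.sqrt_le n
  have hi3 : n < (i + 1) * (i + 1) := Nat.lt_succ_sqrt n
  have hin : i ≤ n := le_trans (Nat.le_mul_self i) hi2
  have hir : (1 : ℝ) ≤ i := by exact_mod_cast hi1
  have hi2r : (i : ℝ) ^ 2 ≤ n := by
    rw [sq]; exact_mod_cast hi2
  have hterm : (n.choose i : ℝ) / (i.factorial : ℝ) ≤
      ∑ j ∈ range (n + 1), (n.choose j : ℝ) / (j.factorial : ℝ) :=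
    single_le_sum (f := fun j => (n.choose j : ℝ) / (j.factorial : ℝ))
      (fun j _ => by positivity) (mem_range.2 (by omega))
  refine le_trans ?_ hterm
  -- choose
  have hch : ((n + 1 - i : ℕ) : ℝ) ^ i ≤ (i.factorial : ℝ) * (n.choose i : ℝ) := by
    have := Nat.pow_sub_le_descFactorial n i
    rw [Nat.descFactorial_eq_factorial_mul_choose] at this
    exact_mod_cast this
  have hcast : ((n + 1 - i : ℕ) : ℝ) = (n : ℝ) + 1 - i := by
    rw [Nat.cast_sub (by omega)]; push_cast; ring
  rw [hcast] at hch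
  have hfpos : (0 : ℝ) < (i.factorial : ℝ) := by positivity
  -- (n+1-i)^i ≥ i^(2i) e^{-1}
  have hlow : (i : ℝ) ^ (2 * i) * Real.exp (-1) ≤ ((n : ℝ) + 1 - i) ^ i := by
    have h1 : (i : ℝ) ^ 2 * (i / (i + 1)) ≤ (n : ℝ) + 1 - i := by
      have h2 : (i : ℝ) ^ 2 * (i / (i + 1)) = (i : ℝ) ^ 2 - i + 1 - 1 / (i + 1) := by
        field_simp
        ring
      have h3 : 0 < 1 / ((i : ℝ) + 1) := by positivity
      linarith
    have h4 : Real.exp (-1) ≤ ((i : ℝ) / (i + 1)) ^ i := by
      have h5 : Real.exp (-(1 / (i : ℝ))) ≤ i / (i + 1) := by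
        have h6 := Real.add_one_le_exp (1 / (i : ℝ))
        rw [Real.exp_neg, ← one_div, div_le_div_iff₀ (Real.exp_pos _) (by positivity)]
        have h7 : (i : ℝ) * (1 / i + 1) = 1 + i := by field_simp
        nlinarith
      have h8 : Real.exp (-1) = Real.exp (-(1 / (i : ℝ))) ^ i := by
        rw [← Real.exp_nat_mul]
        congr 1
        field_simp
      rw [h8]
      gcongr
    calc (i : ℝ) ^ (2 * i) * Real.exp (-1) ≤ (i : ℝ) ^ (2 * i) * ((i : ℝ) / (i + 1)) ^ i := by gcongr
      _ = ((i : ℝ) ^ 2 * (i / (i + 1))) ^ i := by rw [mul_pow, ← pow_mul]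
      _ ≤ ((n : ℝ) + 1 - i) ^ i := by gcongr
  have hfac := factorial_le i hi1
  have hmain : Real.exp (2 * i - 3) / (i : ℝ) ^ 2 ≤ (n.choose i : ℝ) / (i.factorial : ℝ) := by
    rw [div_le_div_iff₀ (by positivity) hfpos]
    -- exp(2i-3) * i! ≤ choose * i^2
    have h1 : (i : ℝ) ^ (2 * i) * Real.exp (-1) ≤ (i.factorial : ℝ) * (n.choose i : ℝ) :=
      hlow.trans hch
    have h2 : Real.exp (2 * i - 3) * (i.factorial : ℝ) * (i.factorial : ℝ) ≤
        (n.choose i : ℝ) * (i : ℝ) ^ 2 * (i.factorial : ℝ) := by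
      calc Real.exp (2 * i - 3) * (i.factorial : ℝ) * (i.factorial : ℝ)
          ≤ Real.exp (2 * i - 3) * (i ^ (i + 1) * Real.exp (1 - i)) *
            (i ^ (i + 1) * Real.exp (1 - i)) := by gcongr
        _ = (i : ℝ) ^ (2 * i) * (i : ℝ) ^ 2 *
            (Real.exp (2 * i - 3) * (Real.exp (1 - i) * Real.exp (1 - i))) := by ring
        _ = (i : ℝ) ^ (2 * i) * (i : ℝ) ^ 2 * Real.exp (-1) := by
            rw [← Real.exp_add, ← Real.exp_add]
            congr 2
            ring
        _ = ((i : ℝ) ^ (2 * i) * Real.exp (-1)) * (i : ℝ) ^ 2 := by ring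
        _ ≤ ((i.factorial : ℝ) * (n.choose i : ℝ)) * (i : ℝ) ^ 2 := by gcongr
        _ = (n.choose i : ℝ) * (i : ℝ) ^ 2 * (i.factorial : ℝ) := by ring
    exact le_of_mul_le_mul_right h2 hfpos
  refine le_trans ?_ hmain
  have hsq : Real.sqrt n ≤ i + 1 := by
    apply Real.sqrt_le_iff.2
    refine ⟨by positivity, ?_⟩
    have : (n : ℝ) ≤ ((i + 1) * (i + 1) : ℕ) := by exact_mod_cast hi3.le
    push_cast at this
    nlinarith
  have hn0 : (0 : ℝ) < n := by exact_mod_cast hn
  rw [div_le_div_iff₀ (by positivity) (by positivity)]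
  have he : Real.exp (2 * Real.sqrt n) ≤ Real.exp (2 * i - 3) * Real.exp 5 := by
    rw [← Real.exp_add]
    apply Real.exp_le_exp.2
    linarith
  have h5 : Real.exp 5 ≤ 150 := by
    have h6 := Real.exp_one_lt_d9
    have h7 : Real.exp 5 = Real.exp 1 ^ 5 := by rw [← Real.exp_nat_mul]; norm_num
    rw [h7]
    calc Real.exp 1 ^ 5 ≤ 2.7182818286 ^ 5 := by gcongr
      _ ≤ 150 := by norm_num
  calc Real.exp (2 * Real.sqrt n) * (i : ℝ) ^ 2
      ≤ (Real.exp (2 * i - 3) * Real.exp 5) * n := by gcongr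
    _ ≤ (Real.exp (2 * i - 3) * 150) * n := by gcongr
    _ = Real.exp (2 * i - 3) * (150 * n) := by ring


end Pool.Agent.H454R2.Piv
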